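import Pool.Agent.Helper6K1.ZM.Base

/-!
Zero in the spectrum for closed aspherical manifolds (and finite aspherical complexes) which fibre
over a base of dimension at most five (or over a tower of circle bundles over such a base), where the
fundamental group of the fibre is amenable. There is no condition on the monodromy.

A closed aspherical manifold `M` with fundamental group `G` is homotopy equivalent to a finite CW
complex, and the cellular chain complex of the universal cover of that complex is a finite free
resolution `X` of the trivial `ℤ[G]`-module `ℤ` (`Pool.Agent.H919R4.ZS.FinRes`). Its homology with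
coefficients in `C*_r(G)` is the homology of `M` with these coefficients.

Let `F → M → E` be a fibre bundle of closed aspherical manifolds. Then `G = π_1(M)` has the normal
subgroup `N = π_1(F)` with `G/N = π_1(E)`. `Tower (G/N) B` (`Pool.Agent.TH38.ZT.Tower`): `B` arises
from `G/N` by successively dividing out infinite cyclic normal subgroups (`E` is an iterated circle
bundle over a manifold with the group `B`; the case `B = G/N` is included). Amenability is the
Foelner condition (`Pool.Agent.H496R3.ZS.IsAmenable`), `euler Y` (`Pool.Agent.TH38.ZT.euler`) is the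
Euler characteristic, and `toRat N` (`Pool.Agent.R807.ZK.toRat`) is the ring homomorphism
`ℤ[G] → ℚ[G/N]`, so that `X.homology (toRat N) q`, the homology of `ℚ[G/N] ⊗_{ℤ[G]} X`, is
`H_q(N; ℚ)`. `FinDim X (toRat N) q` (`Pool.Agent.Helper6K1.ZM.FinDim`) says that it has finite
dimension over `ℚ`.

`GoodBase Y i` (`Pool.Agent.Helper6K1.ZM.GoodBase`) says that one of the following holds.
* `H_k(B; C*_r(B)) ≠ 0` for some `k ≤ i`.
* The length of the resolution `Y` of `B` is at most two, or `H^k(B; ℤ[B]) ≠ 0` for some `k ≤ 2`.
* `B` is a Poincaré duality group of dimension `n ≤ 2 i + 1` (`Pool.Agent.Helper6K1.ZM.IsPD`: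
  `H^k(B; ℤ[B]) = 0` for `k ≠ n` and `H^n(B; ℤ[B]) ≅ ℤ`), for instance the fundamental group of a
  closed aspherical manifold of dimension `n`, and `n ≤ 3`, or the Euler characteristic of `B` is
  not zero, or `H_k(B; C*_r(B)) ≠ 0` for some `k`.

In the case `i = 2` the hypothesis on the fibre is that `H_1(N; ℚ)` has finite dimension. This holds
for all closed fibres. So, **if a closed aspherical manifold `E` of dimension at most five satisfies
the conjecture, then all closed aspherical manifolds which fibre over `E` with amenable fibre groups
do.**

The proof: suppose that `H_j(M; C*_r(G)) = 0` for all `j ≤ i`. The homomorphism from `C*_r(G)` to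
`S = C*_r(G/N)` reduces the theorem to the comparison of `S ⊗ X` with the resolution of `G/N`. The
first obstruction lies in `S ⊗_{ℂ[G/N]} V` with `V = H_{i-1}(N; ℂ)`. The new point is that
`S ⊗_{ℂ[Q]} V = 0` for **every** finite-dimensional module `V` if `Q` is not amenable
(`Pool.Agent.Helper6K1.ZM.one_mem`): a left ideal `J` of finite codimension in `ℂ[Q]` which generates a
proper left ideal of `C*_r(Q)` has approximate kernel vectors in `ℓ²(Q)`; in the limit they give a
finite-dimensional quotient of `ℂ[Q]/J` with an invariant inner product, weakly contained in the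
regular representation, and the untwisting of the approximate kernel vectors gives almost invariant
vectors in `ℓ²(Q)`.
-/

set_option autoImplicit false

namespace Pool.Agent.Results.MP_48737f_gt.AmenableFibresAnyMonodromy

open Pool.Agent.H919R4.ZS (FinRes toRed)
open Pool.Agent.H496R3.ZS (IsAmenable)
open Pool.Agent.TH38.ZT (Tower)
open Pool.Agent.R807.ZK (toRat)
open Pool.Agent.Helper6K1.ZM (GoodBase FinDim)

/-- Let `N` be an amenable normal subgroup of `G`, let `B` arise from `G/N` by successively dividing
out infinite cyclic normal subgroups, let `Y` be a finite free resolution of `ℤ` over `ℤ[B]`, let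
`i ≥ 2`, and suppose that `GoodBase Y i` holds (for instance, `H_k(B; C*_r(B)) ≠ 0` for some `k ≤ i`,
or `B` is the fundamental group of a closed aspherical manifold of dimension at most `2 i + 1` with
`H_k(B; C*_r(B)) ≠ 0` for some `k`). Let `X` be a finite free resolution of `ℤ` over `ℤ[G]`. If
`H_q(N; ℚ) = 0` for `1 ≤ q < i - 1` and `H_{i-1}(N; ℚ)` has finite dimension, then there is `j ≤ i`
with `H_j(M; C*_r(G)) ≠ 0`. -/
theorem result (G : Type) [Group G] (N : Subgroup G) [N.Normal] (hN : IsAmenable N)
    (B : Type) [Group B] (hB : Tower (G ⧸ N) B) (Y : FinRes B) (i : ℕ) (hi : 2 ≤ i)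
    (hY : GoodBase Y i) (X : FinRes G)
    (h0 : ∀ q, 1 ≤ q → q + 1 < i → Subsingleton (X.homology (toRat N) q))
    (h1 : FinDim X (toRat N) (i - 1)) :
    ∃ j ≤ i, Nontrivial (X.homology (toRed G) j) :=
  Pool.Agent.Helper6K1.ZM.conclusion N hN B hB Y i hi hY X h0 h1

end Pool.Agent.Results.MP_48737f_gt.AmenableFibresAnyMonodromy
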