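import Pool.Agent.Helper6K1.ZQ.Final

/-!
Zero in the spectrum for closed aspherical manifolds (and finite aspherical complexes) which fibre
over a base of dimension at most seven whose fundamental group is generated by a chain of commuting
nonamenable subgroups, where the fundamental group of the fibre is amenable. There is no condition on
the monodromy.

A closed aspherical manifold `M` with fundamental group `G` is homotopy equivalent to a finite CW
complex, and the cellular chain complex of the universal cover of that complex is a finite free
resolution `X` of the trivial `ℤ[G]`-module `ℤ` (`Pool.Agent.H919R4.ZS.FinRes`). Its homology with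
coefficients in `C*_r(G)` is the homology of `M` with these coefficients.

Let `F → M → E` be a fibre bundle of closed aspherical manifolds. Then `G = π_1(M)` has the normal
subgroup `N = π_1(F)` with `G/N = π_1(E)`. Amenability is the Foelner condition
(`Pool.Agent.H496R3.ZS.IsAmenable`), and `toRat N` (`Pool.Agent.R807.ZK.toRat`) is the ring
homomorphism `ℤ[G] → ℚ[G/N]`, so that `X.homology (toRat N) q`, the homology of
`ℚ[G/N] ⊗_{ℤ[G]} X`, is `H_q(N; ℚ)`. `FinDim X (toRat N) q` (`Pool.Agent.Helper6K1.ZM.FinDim`) says
that it has finite dimension over `ℚ`; this holds for all `q` if `F` is a closed manifold.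

The condition on the group `G/N` of the base: there is a family `(Γ a)` of nonamenable subgroups which
generates a normal subgroup, such that every two members of the family are joined by a sequence of
members each of which commutes with the next one (`Pool.Agent.Helper6K1.ZQ.Commutes`). In general no
two commuting members generate a normal subgroup. For instance, an amalgam of products
`(A × B) *_B (B × C)` with nonamenable factors is generated by the chain `A`, `B`, `C` of its
subgroups, where `A` and `C` do not commute.

`GoodBase Y 3` (`Pool.Agent.Helper6K1.ZM.GoodBase`, here for the resolution `Y` of `G/N`) says that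
one of the following holds.
* `H_k(G/N; C*_r(G/N)) ≠ 0` for some `k ≤ 3`.
* The length of the resolution `Y` is at most two, or `H^k(G/N; ℤ[G/N]) ≠ 0` for some `k ≤ 2`.
* `G/N` is a Poincaré duality group of dimension `n ≤ 7` (`Pool.Agent.Helper6K1.ZM.IsPD`), for
  instance the fundamental group of a closed aspherical manifold of dimension `n`, and `n ≤ 3`, or
  the Euler characteristic of `G/N` is not zero, or `H_k(G/N; C*_r(G/N)) ≠ 0` for some `k`.

So: **if a closed aspherical manifold `E` of dimension at most seven satisfies the conjecture, and
`π_1(E)` is generated by a chain of commuting nonamenable subgroups, then all closed aspherical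
manifolds which fibre over `E` with closed aspherical fibres with amenable fundamental groups satisfy
the conjecture.**

The proof: put `Q = G/N` and `S = C*_r(Q)`. The mapping cone `D` of `ℂ[Q] ⊗ X → Y` is a complex of
free modules with `H_0(D) = H_1(D) = 0` and with finite-dimensional homology in degrees two and three;
one has to show that a cocycle of degree three with coefficients in an `S`-module `M` is a coboundary.
A left ideal of finite codimension in the group algebra of a nonamenable group `Γ` generates the unit
left ideal of `C*_r(Γ)`. Averaging the cocycle over such a partition of the unit for `Γ a` gives a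
cochain of degree two which is equivariant under all members of the family which commute with `Γ a`;
it is unique, hence also equivariant under `Γ a`, and it is the same for commuting members, hence for
all members of the family.
-/

set_option autoImplicit false

namespace Pool.Agent.Results.MP_48737f_gt.ChainCommutingSubgroups

open Pool.Agent.H919R4.ZS (FinRes toRed)
open Pool.Agent.H496R3.ZS (IsAmenable)
open Pool.Agent.R807.ZK (toRat)
open Pool.Agent.Helper6K1.ZM (GoodBase FinDim)
open Pool.Agent.Helper6K1.ZQ (Commutes)

/-- Let `N` be an amenable normal subgroup of `G`, and let `(Γ a)` be a nonempty family of nonamenable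
subgroups of `G/N` which generates a normal subgroup. Suppose that every member of the family commutes
with some member, and that every two members are joined by a chain in which consecutive members
commute. Let `X` and `Y` be finite free resolutions of `ℤ` over `ℤ[G]` and `ℤ[G/N]`, and suppose that
`GoodBase Y 3` holds (for instance, `G/N` is the fundamental group of a closed aspherical manifold of
dimension at most seven with `H_k(G/N; C*_r(G/N)) ≠ 0` for some `k`). If `H_1(N; ℚ)` and `H_2(N; ℚ)`
have finite dimension, then there is `j ≤ 3` with `H_j(M; C*_r(G)) ≠ 0`. -/
theorem result (G : Type) [Group G] (N : Subgroup G) [N.Normal] (hN : IsAmenable N)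
    (ι : Type) [hne : Nonempty ι] (Γ : ι → Subgroup (G ⧸ N)) (hΓ : ∀ a, ¬ IsAmenable (Γ a))
    (hnb : ∀ a, ∃ b, Commutes Γ a b) (hconn : ∀ a b, Relation.ReflTransGen (Commutes Γ) a b)
    (hnormal : (⨆ a, Γ a).Normal) (Y : FinRes (G ⧸ N)) (hY : GoodBase Y 3)
    (X : FinRes G) (hfin : ∀ q, 1 ≤ q → q ≤ 2 → FinDim X (toRat N) q) :
    ∃ j ≤ 3, Nontrivial (X.homology (toRed G) j) :=
  Pool.Agent.Helper6K1.ZQ.conclusion N hN Γ hΓ hne hnb hconn hnormal Y hY X hfin

end Pool.Agent.Results.MP_48737f_gt.ChainCommutingSubgroups
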