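import Pool.Agent.Helper6K1.ZP.Final

/-!
Zero in the spectrum for closed aspherical manifolds (and finite aspherical complexes) which fibre
over a base whose fundamental group contains `m` commuting nonamenable subgroups, where the dimension
of the base is at most `2 m + 3` and the fundamental group of the fibre is amenable. There is no
condition on the monodromy. For instance the base is a product of `m` closed hyperbolic surfaces, or a
product of `m - 1` closed aspherical manifolds with nonamenable fundamental groups and of one of
dimension at most five.

A closed aspherical manifold `M` with fundamental group `G` is homotopy equivalent to a finite CW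
complex, and the cellular chain complex of the universal cover of that complex is a finite free
resolution `X` of the trivial `ℤ[G]`-module `ℤ` (`Pool.Agent.H919R4.ZS.FinRes`). Its homology with
coefficients in `C*_r(G)` is the homology of `M` with these coefficients.

Let `F → M → E` be a fibre bundle of closed aspherical manifolds. Then `G = π_1(M)` has the normal
subgroup `N = π_1(F)` with `G/N = π_1(E)`. Amenability is the Foelner condition
(`Pool.Agent.H496R3.ZS.IsAmenable`), and `toRat N` (`Pool.Agent.R807.ZK.toRat`) is the ring
homomorphism `ℤ[G] → ℚ[G/N]`, so that `X.homology (toRat N) q`, the homology of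
`ℚ[G/N] ⊗_{ℤ[G]} X`, is `H_q(N; ℚ)`. `FinDim X (toRat N) q` (`Pool.Agent.Helper6K1.ZM.FinDim`) says
that it has finite dimension over `ℚ`; this holds for all `q` if `F` is a closed manifold.

`GoodBase Y i` (`Pool.Agent.Helper6K1.ZM.GoodBase`, here for the resolution `Y` of `G/N`) says that
one of the following holds.
* `H_k(G/N; C*_r(G/N)) ≠ 0` for some `k ≤ i`.
* The length of the resolution `Y` is at most two, or `H^k(G/N; ℤ[G/N]) ≠ 0` for some `k ≤ 2`.
* `G/N` is a Poincaré duality group of dimension `n ≤ 2 i + 1` (`Pool.Agent.Helper6K1.ZM.IsPD`), for
  instance the fundamental group of a closed aspherical manifold of dimension `n`, and `n ≤ 3`, or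
  the Euler characteristic of `G/N` is not zero, or `H_k(G/N; C*_r(G/N)) ≠ 0` for some `k`.

With `i = m + 1`: **if a closed aspherical manifold `E` of dimension at most `2 m + 3` satisfies the
conjecture, and `π_1(E)` contains `m` pairwise commuting nonamenable subgroups which generate a normal
subgroup, then all closed aspherical manifolds which fibre over `E` with closed aspherical fibres with
amenable fundamental groups satisfy the conjecture.**

The proof: put `Q = G/N` and `S = C*_r(Q)`. The mapping cone `D` of `ℂ[Q] ⊗ X → Y` is a complex of
free modules with `H_0(D) = H_1(D) = 0` and with finite-dimensional homology below. A left ideal of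
finite codimension in the group algebra of a nonamenable group `Γ` generates the unit left ideal of
`C*_r(Γ)`; therefore the elements of the group algebra of `Γ_k` which kill the homology of `D` generate
the unit left ideal of `C*_r(Γ_k)`, which acts on every `S`-module `M` by maps which commute with
the other `Γ_l`. A composition of sufficiently many maps which kill the homology is homotopic to zero,
by homotopies which are equivariant for the other subgroups. Each of the `m` subgroups gives one more
degree in which the cohomology of `D` with coefficients in `M` vanishes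
(`Pool.Agent.Helper6K1.ZP.step`), so that it vanishes in all degrees at most `m + 1`.
-/

set_option autoImplicit false

namespace Pool.Agent.Results.MP_48737f_gt.CommutingSubgroupsAnyMonodromy

open Pool.Agent.H919R4.ZS (FinRes toRed)
open Pool.Agent.H496R3.ZS (IsAmenable)
open Pool.Agent.R807.ZK (toRat)
open Pool.Agent.Helper6K1.ZM (GoodBase FinDim)

/-- Let `N` be an amenable normal subgroup of `G`, let `Γ_1, …, Γ_m` be nonamenable subgroups of `G/N`
which commute with each other and generate a normal subgroup of `G/N`, and let `2 ≤ i ≤ m + 1`. Let
`X` and `Y` be finite free resolutions of `ℤ` over `ℤ[G]` and `ℤ[G/N]`, and suppose that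
`GoodBase Y i` holds (for instance, `H_k(G/N; C*_r(G/N)) ≠ 0` for some `k ≤ i`, or `G/N` is the
fundamental group of a closed aspherical manifold of dimension at most `2 i + 1` with
`H_k(G/N; C*_r(G/N)) ≠ 0` for some `k`). If `H_q(N; ℚ)` has finite dimension for `1 ≤ q < i`, then
there is `j ≤ i` with `H_j(M; C*_r(G)) ≠ 0`. -/
theorem result (G : Type) [Group G] (N : Subgroup G) [N.Normal] (hN : IsAmenable N)
    (m : ℕ) (Γ : Fin m → Subgroup (G ⧸ N)) (hΓ : ∀ k, ¬ IsAmenable (Γ k))
    (hcomm : ∀ k l, k ≠ l → ∀ x ∈ Γ k, ∀ y ∈ Γ l, x * y = y * x) (hnormal : (⨆ k, Γ k).Normal)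
    (Y : FinRes (G ⧸ N)) (i : ℕ) (hi : 2 ≤ i) (him : i ≤ m + 1) (hY : GoodBase Y i)
    (X : FinRes G) (hfin : ∀ q, 1 ≤ q → q < i → FinDim X (toRat N) q) :
    ∃ j ≤ i, Nontrivial (X.homology (toRed G) j) :=
  Pool.Agent.Helper6K1.ZP.conclusion N hN m Γ hΓ hcomm hnormal Y i hi him hY X hfin

end Pool.Agent.Results.MP_48737f_gt.CommutingSubgroupsAnyMonodromy
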