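import Pool.Agent.Helper6K1.ZR.Final

/-!
Zero in the spectrum for closed aspherical manifolds (and finite aspherical complexes) of any dimension
which fibre with amenable fibre group and nilpotent monodromy.

A closed aspherical manifold `M` with fundamental group `G` is homotopy equivalent to a finite CW
complex, and the cellular chain complex of the universal cover of that complex is a finite free
resolution `X` of the trivial `ℤ[G]`-module `ℤ` (`Pool.Agent.H919R4.ZS.FinRes`). Its homology with
coefficients in `C*_r(G)` is the homology of `M` with these coefficients.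

Let `F → M → E` be a fibre bundle of closed aspherical manifolds. Then `G = π_1(M)` has the normal
subgroup `N = π_1(F)` with `G/N = π_1(E)`. Amenability is the Foelner condition
(`Pool.Agent.H496R3.ZS.IsAmenable`), and `toRat N` (`Pool.Agent.R807.ZK.toRat`) is the ring
homomorphism `ℤ[G] → ℚ[G/N]`, so that `X.homology (toRat N) q`, the homology of
`ℚ[G/N] ⊗_{ℤ[G]} X`, is `H_q(N; ℚ)`, on which `G/N` acts (the monodromy).
`FinDim X (toRat N) q` (`Pool.Agent.Helper6K1.ZM.FinDim`) says that it has finite dimension over `ℚ`;
this holds for all `q` if `F` is a closed manifold. `NilHom N X K q c`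
(`Pool.Agent.Helper6K1.ZR.NilHom`) says that the subgroup `K` of `G/N` acts nilpotently, of class `c`,
on `H_q(N; ℚ)`: all products of `c` elements `g - 1` with `g ∈ K` act as zero.

`GoodBase Y i` (`Pool.Agent.Helper6K1.ZM.GoodBase`, here for the resolution `Y` of `G/N`) says that
one of the following holds.
* `H_k(G/N; C*_r(G/N)) ≠ 0` for some `k ≤ i`.
* The length of the resolution `Y` is at most two, or `H^k(G/N; ℤ[G/N]) ≠ 0` for some `k ≤ 2`.
* `G/N` is a Poincaré duality group of dimension `n ≤ 2 i + 1` (`Pool.Agent.Helper6K1.ZM.IsPD`), for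
  instance the fundamental group of a closed aspherical manifold of dimension `n`, and `n ≤ 3`, or
  the Euler characteristic of `G/N` is not zero, or `H_k(G/N; C*_r(G/N)) ≠ 0` for some `k`.

The case `K = G/N`, where `i ≥ 2` is the first degree at least two such that
`H_k(G/N; C*_r(G/N)) ≠ 0` for some `k ≤ i`: **if a closed aspherical manifold `E` whose fundamental
group is not amenable satisfies the conjecture, then all closed aspherical manifolds which fibre over
`E` with closed aspherical fibres `F` such that `π_1(F)` is amenable and `π_1(E)` acts nilpotently (for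
instance, trivially) on the rational homology of `F` satisfy the conjecture**. Here there is no
restriction on the dimensions. In general it suffices that a normal subgroup `K` of `π_1(E)` acts
nilpotently, when its homology with coefficients in `C*_r(K)` vanishes in degrees less than `i - 1`;
the action of the other elements of `π_1(E)` is arbitrary. For instance, a closed aspherical manifold
`E` of dimension at most seven which satisfies the conjecture is admitted as soon as a normal subgroup
`K` of `π_1(E)` of type `F` with `H_0(K; C*_r(K)) = H_1(K; C*_r(K)) = 0` acts nilpotently on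
`H_1(F; ℚ)`.

The proof: put `Q = G/N` and `S = C*_r(Q)`. The mapping cone `D` of `ℚ[Q] ⊗ X → Y` is a complex of
free modules with `H_0(D) = H_1(D) = 0` and `H_{q+1}(D) = H_q(N; ℚ)` for `q ≥ 1`. Let `M` be an
`S`-module. It is a module over `C*_r(K)`, and the contraction of `C*_r(K) ⊗ W` in low degrees shows
that `Ext^p(ℚ, M) = 0` over `ℚ[K]` for `p < i - 1`; therefore `Ext^p(V, M) = 0` for all nilpotent
`ℚ[K]`-modules `V` of any dimension (`Pool.Agent.Helper6K1.ZR.v_nil`). In the highest degree one uses
that `Hom_K(V, M) = 0` for all finite-dimensional `V`. Dimension shifting gives that the cohomology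
of `D` with coefficients in `M` vanishes over `ℚ[K]`
(`Pool.Agent.Helper6K1.ZR.cocycle_ext`), and then also over `ℚ[Q]`
(`Pool.Agent.Helper6K1.ZP.descent`).
-/

set_option autoImplicit false

namespace Pool.Agent.Results.MP_48737f_gt.NilpotentMonodromy

open Pool.Agent.H919R4.ZS (FinRes toRed)
open Pool.Agent.H496R3.ZS (IsAmenable)
open Pool.Agent.R807.ZK (toRat)
open Pool.Agent.Helper6K1.ZM (GoodBase FinDim)
open Pool.Agent.Helper6K1.ZR (NilHom)

/-- Let `N` be an amenable normal subgroup of `G`, let `K` be a normal subgroup of `G/N`, and let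
`i ≥ 2`. Let `X`, `Y` and `W` be finite free resolutions of `ℤ` over `ℤ[G]`, `ℤ[G/N]` and `ℤ[K]`.
Suppose that `H_p(K; C*_r(K)) = 0` for all `p < i - 1`, that `K` acts nilpotently on `H_q(N; ℚ)` for
`1 ≤ q < i - 1`, that `H_{i-1}(N; ℚ)` has finite dimension, and that `GoodBase Y i` holds (for
instance, `H_k(G/N; C*_r(G/N)) ≠ 0` for some `k ≤ i`, or `G/N` is the fundamental group of a closed
aspherical manifold of dimension at most `2 i + 1` with `H_k(G/N; C*_r(G/N)) ≠ 0` for some `k`). Then
there is `j ≤ i` with `H_j(M; C*_r(G)) ≠ 0`. -/
theorem result (G : Type) [Group G] (N : Subgroup G) [N.Normal] (hN : IsAmenable N)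
    (K : Subgroup (G ⧸ N)) [K.Normal] (W : FinRes K) (i : ℕ) (hi : 2 ≤ i)
    (hW : ∀ p, p < i - 1 → Subsingleton (W.homology (toRed K) p))
    (Y : FinRes (G ⧸ N)) (hY : GoodBase Y i) (X : FinRes G)
    (hnil : ∀ q, 1 ≤ q → q < i - 1 → ∃ c, NilHom N X K q c)
    (hfin : FinDim X (toRat N) (i - 1)) :
    ∃ j ≤ i, Nontrivial (X.homology (toRed G) j) :=
  Pool.Agent.Helper6K1.ZR.conclusion' N hN K W i hi (fun p hp => hW p (by omega)) Y hY X
    (fun q hq hq' => hnil q hq (by omega)) hfin

end Pool.Agent.Results.MP_48737f_gt.NilpotentMonodromy
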